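import Pool.Agent.MP_1246c0_nt.H25.SpecA

/-! The inertia elements generate. -/

namespace Pool.Agent.MP_1246c0_nt.H25

open Pool.Agent.MP_db5b97_nt.H85 Pool.Agent.MP_1246c0_nt.H12

namespace GEN

/-- a proper subgroup of a finite group of exponent a power of two lies in one of index two -/
lemma two_fin {G : Type} [Group G] [Finite G] (hG : IsPGroup 2 G) (H : Subgroup G) (h : H ≠ ⊤) :
    ∃ K : Subgroup G, H ≤ K ∧ K.index = 2 := by
  obtain ⟨N, hN⟩ := IsPGroup.iff_card.1 hG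
  obtain ⟨n, hn⟩ := IsPGroup.iff_card.1 (hG.to_subgroup H)
  have h1 : n < N := by
    by_contra c
    refine h (Subgroup.eq_top_of_le_card H ?_)
    rw [hN, hn]
    exact Nat.pow_le_pow_right two_pos (not_lt.1 c)
  obtain ⟨k, rfl⟩ : ∃ k, N = k + 1 := ⟨N - 1, by omega⟩
  obtain ⟨K, k1, k2⟩ := Sylow.exists_subgroup_card_pow_prime_le 2 (m := k)
    (hN ▸ pow_dvd_pow 2 k.le_succ) H hn (by omega)
  refine ⟨K, k2, ?_⟩
  have := K.card_mul_index
  rw [k1, hN, pow_succ] at this
  exact Nat.eq_of_mul_eq_mul_left (by positivity) this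

lemma two_ga {U H : Subgroup Ga} (hU : Op U) (hH : U ≤ H) (h : H ≠ ⊤) :
    ∃ K : Subgroup Ga, H ≤ K ∧ K.index = 2 := by
  obtain ⟨n, o, p⟩ := hU
  have := U.quotient_finite_of_isOpen o
  obtain ⟨K, k1, k2⟩ := two_fin (G := Ga ⧸ U) (fun g => by
    obtain ⟨g, rfl⟩ := QuotientGroup.mk_surjective g
    obtain ⟨k, hk⟩ := p g
    exact ⟨k, by rw [← QuotientGroup.mk_pow, QuotientGroup.eq_one_iff]; exact hk⟩)
    (H.map (QuotientGroup.mk' U)) (fun e => h (by
      rw [← Subgroup.comap_map_eq_self (f := QuotientGroup.mk' U) (H := H) (by simpa using hH), e,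
        Subgroup.comap_top]))
  exact ⟨K.comap (QuotientGroup.mk' U), Subgroup.map_le_iff_le_comap.1 k1, by
    rw [Subgroup.index_comap_of_surjective _ (QuotientGroup.mk'_surjective U), k2]⟩

lemma chi_iff {m : ℤ} {z : Om} (e : z * z = m) (h : Ga) : chi m h = 0 ↔ h z = z := by
  have e1 : h (sqr m) = sqr m ↔ h z = z := by
    rcases mul_self_eq_mul_self_iff.1 ((sqr_mul (m : Om)).trans e.symm) with c | c
    · rw [c]
    · rw [c, map_neg, neg_inj]
  rw [← e1, chi, kch]
  split_ifs with c <;> simp [c]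

/-- open subgroups of index two are kernels of quadratic characters -/
lemma ker {K : Subgroup Ga} (o : IsOpen (K : Set Ga)) (i : K.index = 2) :
    ∃ m : ℤ, m ≠ 0 ∧ ∀ h, chi m h = 0 ↔ h ∈ K := by
  have e : (IntermediateField.fixedField K).fixingSubgroup = K :=
    InfiniteGalois.fixingSubgroup_fixedField ⟨K, K.isClosed_of_isOpen o⟩
  obtain ⟨g, hg⟩ : ∃ g, g ∉ K := by
    by_contra c
    push Not at c
    rw [(Subgroup.eq_top_iff' K).2 c, Subgroup.index_top] at i
    omega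
  obtain ⟨x, hx, gx⟩ : ∃ x, (∀ h ∈ K, h x = x) ∧ g x ≠ x := by
    by_contra c
    push Not at c
    rw [← e, IntermediateField.mem_fixingSubgroup_iff] at hg
    exact hg fun x hx => c x ((IntermediateField.mem_fixedField_iff K x).1 hx)
  have a1 : ∀ h, h ∉ K → h x = g x := fun h hh => by
    have := hx (g⁻¹ * h) (by rw [Subgroup.mul_mem_iff_of_index_two i, inv_mem_iff]; tauto)
    calc h x = g ((g⁻¹ * h) x) := by rw [← AlgEquiv.mul_apply, mul_inv_cancel_left]
      _ = g x := by rw [this]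
  have a2 : ∀ h ∈ K, h (x - g x) = x - g x := fun h hh => by
    rw [map_sub, hx h hh, ← AlgEquiv.mul_apply,
      a1 (h * g) (by rw [Subgroup.mul_mem_iff_of_index_two i]; tauto)]
  have a3 : ∀ h, h ∉ K → h (x - g x) = -(x - g x) := fun h hh => by
    rw [map_sub, a1 h hh, ← AlgEquiv.mul_apply,
      hx (h * g) (by rw [Subgroup.mul_mem_iff_of_index_two i]; tauto), neg_sub]
  have y0 : x - g x ≠ 0 := sub_ne_zero.2 gx.symm
  generalize x - g x = y at a2 a3 y0
  obtain ⟨q, hq⟩ := (InfiniteGalois.mem_range_algebraMap_iff_fixed (k := ℚ) (y * y)).2 fun h => by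
    by_cases c : h ∈ K
    · rw [map_mul, a2 h c]
    · rw [map_mul, a3 h c, neg_mul_neg]
  have d0 : (q.den : Om) ≠ 0 := by exact_mod_cast q.den_nz
  have e2 : (q.den * y) * (q.den * y) = ((q.num * q.den : ℤ) : Om) := by
    have : (q : Om) * q.den = q.num := by
      exact_mod_cast congrArg (Rat.cast : ℚ → Om) q.mul_den_eq_num
    rw [eq_ratCast] at hq
    push_cast
    rw [← this, hq]
    ring
  refine ⟨q.num * q.den, fun c => ?_, fun h => ?_⟩
  · rw [c, Int.cast_zero] at e2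
    exact mul_ne_zero d0 y0 (mul_self_eq_zero.1 e2)
  · rw [chi_iff e2, map_mul, map_natCast, mul_right_inj' d0]
    refine ⟨fun c => by_contra fun c' => y0 ?_, a2 h⟩
    rw [a3 h c'] at c
    exact neg_eq_self.1 c

lemma sqf (z : Ax0) {m : ℤ} (h0 : m ≠ 0) : ∃ (a : ℕ) (s : ℤ), Squarefree a ∧ (s = 1 ∨ s = -1) ∧
    ∀ h, chi m h = chi s h + chi a h := by
  obtain ⟨a, b, ha, hb, e, sq⟩ := Nat.sq_mul_squarefree_of_pos (Int.natAbs_pos.2 h0)
  have a0 : (a : ℤ) ≠ 0 := by omega
  have b0 : (b : ℤ) ≠ 0 := by omega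
  have e1 : (m.natAbs : ℤ) = b * (b * a) := by rw [← e]; push_cast; ring
  have e2 : ∀ h, chi m.natAbs h = chi a h := fun h => by
    rw [e1, z.cmul' _ _ _ b0 (mul_ne_zero b0 a0), z.cmul' _ _ _ b0 a0, ← add_assoc,
      CharTwo.add_self_eq_zero, zero_add]
  have n0 : (m.natAbs : ℤ) ≠ 0 := by omega
  rcases Int.natAbs_eq m with c | c
  · exact ⟨a, 1, sq, Or.inl rfl, fun h => by
      rw [← e2, ← z.cmul' _ _ _ one_ne_zero n0, one_mul, ← c]⟩
  · exact ⟨a, -1, sq, Or.inr rfl, fun h => by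
      rw [← e2, ← z.cmul' _ _ _ (by decide) n0, neg_one_mul, ← c]⟩

end GEN

open GEN in
theorem rowGEN : OfGEN := by
  intro z hv Φ U H hU hH hs ⟨h, h1, h2⟩
  have v := hv Φ
  by_contra c
  obtain ⟨K, k1, k2⟩ := two_ga hU hH c
  obtain ⟨m, m0, hm⟩ := ker (Subgroup.isOpen_mono (hH.trans k1) hU.2.1) k2
  obtain ⟨a, s, sq, hs', e⟩ := sqf z m0
  have c1 : ∀ g, chi 1 g = 0 := fun g => (chi_iff (z := 1) (by simp) g).2 (map_one g)
  have a0 : (a : ℤ) ≠ 0 := by exact_mod_cast sq.ne_zero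
  have z0 : ∀ l, l.Prime → chi s (Φ.sg l) + chi a (Φ.sg l) = 0 := fun l hl => by
    rw [← e, hm]
    exact k1 (hs l hl)
  have a2 : a ∣ 2 := by
    rw [← Nat.factorization_prime_le_iff_dvd sq.ne_zero two_ne_zero]
    intro l hl
    have := Fact.mk hl
    have s1 := sq.natFactorization_le_one l
    by_cases l2 : l = 2
    · rw [l2] at s1 ⊢
      rwa [Nat.prime_two.factorization_self]
    · have g : Gd 0 l := ⟨hl, l2, Nat.zero_le _⟩
      have := z0 l hl
      rw [v.csg l s g (by omega), v.csg l a g a0, padicValInt.of_nat,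
        ← Nat.factorization_def a hl] at this
      have s0 : padicValInt l s = 0 := by rcases hs' with rfl | rfl <;> simp [padicValInt]
      rw [s0] at this
      rcases Nat.le_one_iff_eq_zero_or_eq_one.1 s1 with c | c
      · rw [c]
        exact Nat.zero_le _
      · simp [c] at this
  have t2 : chi 2 (Φ.sg 2) = 0 := by rw [z.c2, v.ksg 1 2 Nat.prime_two]; simp
  have z2 := z0 2 Nat.prime_two
  have s1 : s = 1 := by
    refine hs'.resolve_right fun s1 => ?_
    rw [s1, v.cm.1] at z2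
    rcases (Nat.dvd_prime Nat.prime_two).1 a2 with rfl | rfl
    · simp [c1] at z2
    · simp [t2] at z2
  rcases (Nat.dvd_prime Nat.prime_two).1 a2 with rfl | rfl
  · rw [(Subgroup.eq_top_iff' K).2 fun g => (hm g).1 (by simp [e, s1, c1]),
      Subgroup.index_top] at k2
    omega
  · have := (hm h).2 (k1 h1)
    rw [e, s1, c1, zero_add, Nat.cast_ofNat, z.c2, h2] at this
    revert this
    decide

end Pool.Agent.MP_1246c0_nt.H25
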